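import Pool.Agent.Results.MP_829a29_al.NilpotentMltSupernilpotent
import Pool.Agent.Y345.LS.Key2

/-!
# Supernilpotence of loops: a bound with one factor for each step of the upper central series

Stronger form of `MP_829a29_al.NilpotentMltSupernilpotent` (bound `(2c-1)!!`).  The definitions
`LoopStr`, `Mlt`, `IsPoly`, `IsAbsorbing`, `IsSupernilpotent` are those of that file.
-/

set_option autoImplicit false

open scoped commutatorElement

namespace Pool.Agent.Results.MP_829a29_al.CentralClassBound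

open Pool.Agent.Results.MP_829a29_al.NilpotentMltSupernilpotent
open Pool.Agent.H340R3.Loop Pool.Agent.Y345.LS

universe u

/-- The upper central series of a loop: `Z_0 = {1}`, and `a ∈ Z_{i+1}` if `a x ≡ x a`,
`(a x) y ≡ a (x y)`, `(x a) y ≡ x (a y)` and `(x y) a ≡ x (y a)` modulo `Z_i` for all `x, y`,
where `u ≡ v` modulo `Z_i` means `u / v ∈ Z_i`. The loop is centrally nilpotent of class at most
`k` if `Z_k` is the whole loop. -/
def upperCentral (Q : Type u) [LoopStr Q] : ℕ → Set Q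
  | 0 => {1}
  | i + 1 => {a | ∀ x y : Q,
      LoopStr.rdiv (a * x) (x * a) ∈ upperCentral Q i ∧
      LoopStr.rdiv ((a * x) * y) (a * (x * y)) ∈ upperCentral Q i ∧
      LoopStr.rdiv ((x * a) * y) (x * (a * y)) ∈ upperCentral Q i ∧
      LoopStr.rdiv ((x * y) * a) (x * (y * a)) ∈ upperCentral Q i}

/-- All `n`-fold commutators `[…[[g, h₁], h₂], …, h_n]` with `h_j` in the multiplication group act
trivially on `Q / Z_i`. -/
def ActsTrivially (Q : Type u) [LoopStr Q] (i : ℕ) : ℕ → Mlt Q → Prop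
  | 0, g => ∀ x : Q, LoopStr.rdiv (g.1 x) x ∈ upperCentral Q i
  | n + 1, g => ∀ h : Mlt Q, ActsTrivially Q i n ⁅g, h⁆

/-- left translation -/
def lt (Q : Type u) [LoopStr Q] (a : Q) : Equiv.Perm Q :=
  ⟨fun x => a * x, fun x => LoopStr.ldiv a x, fun x => LoopStr.ldiv_mul a x,
    fun x => LoopStr.mul_ldiv a x⟩

/-- right translation -/
def rt (Q : Type u) [LoopStr Q] (a : Q) : Equiv.Perm Q :=
  ⟨fun x => x * a, fun x => LoopStr.rdiv x a, fun x => LoopStr.mul_rdiv a x,
    fun x => LoopStr.rdiv_mul a x⟩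

/-- the translations in the multiplication group -/
def dd (Q : Type u) [LoopStr Q] : LoopData Q (Mlt Q) where
  o := 1
  l := fun a => ⟨lt Q a, Subgroup.subset_closure ⟨a, Or.inl fun _ => rfl⟩⟩
  r := fun a => ⟨rt Q a, Subgroup.subset_closure ⟨a, Or.inr fun _ => rfl⟩⟩
  lr := fun _ _ => rfl
  lo := fun x => mul_one x
  ro := fun x => one_mul x

theorem gen_dd (Q : Type u) [LoopStr Q] : Gen (dd Q) := by
  have h := Subgroup.closure_closure_coe_preimage
    (k := {s : Equiv.Perm Q | ∃ a : Q, (∀ x, s x = a * x) ∨ (∀ x, s x = x * a)})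
  rw [Gen, eq_top_iff]
  refine (le_of_eq h.symm).trans (Subgroup.closure_mono ?_)
  rintro g ⟨a, ha | ha⟩
  · left
    refine ⟨a, ?_⟩
    apply Subtype.ext
    ext x
    exact (ha x).symm
  · right
    refine ⟨a, ?_⟩
    apply Subtype.ext
    ext x
    exact (ha x).symm

theorem zd_iff (Q : Type u) [LoopStr Q] (i : ℕ) : ∀ a : Q, a ∈ Zd (dd Q) i ↔ a ∈ upperCentral Q i := by
  induction i with
  | zero => exact fun a => Iff.rfl
  | succ i ih =>
    intro a
    refine forall_congr' fun x => forall_congr' fun y => ?_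
    exact and_congr (ih _) (and_congr (ih _) (and_congr (ih _) (ih _)))

theorem w_iff (Q : Type u) [LoopStr Q] (i n : ℕ) :
    ∀ g : Mlt Q, W (dd Q) i n g ↔ ActsTrivially Q i n g := by
  induction n with
  | zero => exact fun g => forall_congr' fun x => zd_iff Q i _
  | succ n ih => exact fun g => forall_congr' fun h => ih _

/-- A filtration with the properties of the key lemma bounds the class of supernilpotence. -/
theorem of_filt (Q : Type u) [LoopStr Q] (B : ℕ)
    (h : ∃ F : Filt (Mlt Q), F.S 0 = ⊤ ∧ F.S 1 = ⊤ ∧ (∀ n, B < n → F.S n = ⊥) ∧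
      ∀ k, ∀ V ∈ (cubeFilt F k).S 0,
        (fun v => (dd Q).r (V v • (dd Q).o)) ∈ (cubeFilt F k).S 0 ∧
        (fun v => (dd Q).l (V v • (dd Q).o)) ∈ (cubeFilt F k).S 0) :
    IsSupernilpotent Q B := by
  obtain ⟨F, h0, h1, hbot, hcl⟩ := h
  intro n hn f hf hab
  have hQ : ∀ u : Fin n → Q, (fun w : Fin n → Bool => f (fun i => if w i then u i else 1)) ∈
      QC (dd Q) F n := by
    intro u
    clear hab
    induction hf with
    | var i => exact qc_face (D := dd Q) h0 h1 n i 1 (u i)
    | const q => exact qc_const h0 n q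
    | mul f g _ _ ihf ihg => exact qc_mul (hcl n) ihf ihg (fun w => rfl)
    | ldiv f g _ _ ihf ihg =>
      exact qc_div1 (hcl n) ihf ihg (fun w => LoopStr.mul_ldiv _ _)
    | rdiv f g _ _ ihf ihg =>
      exact qc_div2 (hcl n) ihg ihf (fun w => LoopStr.rdiv_mul _ _)
  have key2 : ∀ u : Fin n → Q, f u = 1 := by
    intro u
    have := qc_absorb (hbot n hn) (hQ u) (by
      intro s hs
      apply hab
      obtain ⟨i, hi⟩ := Function.ne_iff.1 hs
      refine ⟨i, ?_⟩
      have : s i = false := by simpa using hi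
      rw [this]
      simp)
    change f u = (dd Q).o
    simpa using this
  intro u v
  rw [key2, key2]

theorem main (Q : Type u) [LoopStr Q] (k : ℕ) (t : ℕ → ℕ)
    (hk : upperCentral Q (k + 1) = Set.univ)
    (ht : ∀ i < k,
      (∃ c, 1 ≤ c ∧ 2 * c - 1 ≤ t i ∧ ∀ g, ActsTrivially Q i c g) ∨
      (∃ s, 1 ≤ s ∧ 2 * s ≤ t i ∧
        ∀ g, ActsTrivially Q (i + 1) 0 g → ActsTrivially Q i s g)) :
    IsSupernilpotent Q (∏ i ∈ Finset.range k, t i) := by
  rw [← CC_prod]
  apply of_filt
  refine keyt k Q (Mlt Q) (dd Q) t (gen_dd Q) (fun a => ?_) (fun i hi => ?_)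
  · rw [zd_iff, hk]
    exact Set.mem_univ a
  · rcases ht i hi with ⟨c, h1, h2, h3⟩ | ⟨s, h1, h2, h3⟩
    · exact Or.inl ⟨c, h1, h2, fun g => (w_iff Q i c g).2 (h3 g)⟩
    · exact Or.inr ⟨s, h1, h2, fun g hg => (w_iff Q i s g).2 (h3 g ((w_iff Q (i + 1) 0 g).1 hg))⟩

/-- **Supernilpotence of loops, one factor for each central step.** Let `Q` be a loop with upper
central series `Z_i` and let `M = Mlt(Q)`.
(1) Let `Q` be centrally nilpotent of class at most `k + 1` and let `t_0, …, t_{k-1}` be numbers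
such that, for each `i < k`, (a) `t_i ≥ 2 c - 1` for some `c ≥ 1` such that all `c`-fold commutators
of `M` act trivially on `Q / Z_i` (that is, `Mlt(Q / Z_i)` has class at most `c`), or (b)
`t_i ≥ 2 s` for some `s ≥ 1` such that all commutators `[…[[g, h₁], h₂], …, h_s]`, where `g ∈ M` acts
trivially on `Q / Z_{i+1}` and `h_j ∈ M`, act trivially on `Q / Z_i` (that is, the kernel of
`Mlt(Q / Z_i) → Mlt(Q / Z_{i+1})` lies in the `s`-th centre of `Mlt(Q / Z_i)`). Then `Q` is
`t_0 t_1 ⋯ t_{k-1}`-supernilpotent.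
(2) If `Q` is centrally nilpotent of class at most `k + 1` and `M` is nilpotent of class at most
`c`, then `Q` is `(2 c - 1) (2 c - 3) ⋯ (2 (c - k + 1) - 1)`-supernilpotent (`k` factors, those
which are less than one being replaced by one); for central class two this is `2 c - 1`.
(3) If `M` is nilpotent of class at most `c`, then `Q` is centrally nilpotent of class at most `c`
(Bruck); so (2) contains the bound `(2 c - 1)!!`. -/
theorem result (Q : Type u) [LoopStr Q] :
    (∀ (k : ℕ) (t : ℕ → ℕ), upperCentral Q (k + 1) = Set.univ →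
      (∀ i < k,
        (∃ c, 1 ≤ c ∧ 2 * c - 1 ≤ t i ∧ ∀ g, ActsTrivially Q i c g) ∨
        (∃ s, 1 ≤ s ∧ 2 * s ≤ t i ∧
          ∀ g, ActsTrivially Q (i + 1) 0 g → ActsTrivially Q i s g)) →
      IsSupernilpotent Q (∏ i ∈ Finset.range k, t i)) ∧
    (∀ k c : ℕ, upperCentral Q (k + 1) = Set.univ →
      Subgroup.upperCentralSeries (Mlt Q) c = ⊤ →
      IsSupernilpotent Q (∏ i ∈ Finset.range k, (2 * (c - i - 1) + 1))) ∧
    (∀ c : ℕ, Subgroup.upperCentralSeries (Mlt Q) c = ⊤ → upperCentral Q c = Set.univ) := by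
  refine ⟨main Q, ?_, ?_⟩
  · intro k c hk hc
    refine main Q k _ hk fun i hi => Or.inl ⟨c - i - 1 + 1, by omega, by omega, fun g => ?_⟩
    rw [← w_iff]
    exact W_mono (dd Q) i (c - i) _ (by omega)
      (classW i Q (Mlt Q) (dd Q) c (gen_dd Q) hc) g
  · intro c hc
    rw [Set.eq_univ_iff_forall]
    intro a
    rw [← zd_iff]
    exact bruck c Q (Mlt Q) (dd Q) (gen_dd Q) hc a

end Pool.Agent.Results.MP_829a29_al.CentralClassBound
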